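import Mathlib

/-!
# UX, D1: the smoothing step

`k` is a density, `H = {V ≤ f}`. On `G` one has `(1 + ρ) V ≤ ∫ k(s) f(t + s) ds`; the inequality of Hölder with the exponents
`2q` (for `f`), `2q` (for `G`) and `q / (q - 1)` (for `H`) bounds the measure of `H` from below.
-/

set_option autoImplicit false
open MeasureTheory Set Filter Topology

namespace Pool.Agent.Helper38.UX

/-- the exponents -/
lemma arith_step {T a p M g h r : ℝ} (hT : 0 < T) (ha : 0 < a) (hp : 0 < p) (hM : 0 < M) (hr : 2 ≤ r)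
    (hg : p * T ≤ g) (hh : 0 ≤ h)
    (H : a * g ≤ g ^ (1 / (2 * r)) * h ^ ((r - 1) / r) * (M * T) ^ (1 / (2 * r))) :
    a ^ (r / (r - 1)) * (1 / (M + 1)) * p ^ ((2 * r - 1) / (2 * r - 2)) * T ≤ h := by
  have hr0 : 0 < r := by linarith
  have hr1 : 0 < r - 1 := by linarith
  have hpT : 0 < p * T := mul_pos hp hT
  have hg0 : 0 < g := hpT.trans_le hg
  obtain ⟨e, he⟩ : ∃ e : ℝ, e = 1 / (2 * r) := ⟨_, rfl⟩
  obtain ⟨c, hc⟩ : ∃ c : ℝ, c = (r - 1) / r := ⟨_, rfl⟩
  have hce : c = 1 - 2 * e := by rw [hc, he]; field_simp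
  have he0 : 0 < e := by rw [he]; positivity
  have hc0 : 0 < c := by rw [hc]; positivity
  have he1 : e ≤ 1 / 4 := by
    rw [he, div_le_div_iff₀ (by positivity) (by norm_num)]
    linarith
  have hec : e ≤ c := by rw [hce]; linarith
  rw [← he, ← hc] at H
  -- remove `g ^ e`
  have h1 : a * g ^ (1 - e) ≤ h ^ c * (M * T) ^ e := by
    have e1 : g = g ^ e * g ^ (1 - e) := by
      rw [← Real.rpow_add hg0]
      simp
    have hge : 0 < g ^ e := Real.rpow_pos_of_pos hg0 e
    have h2 : g ^ e * (a * g ^ (1 - e)) ≤ g ^ e * (h ^ c * (M * T) ^ e) := by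
      calc g ^ e * (a * g ^ (1 - e)) = a * (g ^ e * g ^ (1 - e)) := by ring
        _ = a * g := by rw [← e1]
        _ ≤ g ^ e * h ^ c * (M * T) ^ e := H
        _ = g ^ e * (h ^ c * (M * T) ^ e) := by ring
    exact le_of_mul_le_mul_left h2 hge
  have h2 : a * (p * T) ^ (1 - e) ≤ h ^ c * (M * T) ^ e :=
    (mul_le_mul_of_nonneg_left (Real.rpow_le_rpow hpT.le hg (by linarith)) ha.le).trans h1
  have h3 : a * p ^ (1 - e) * T ^ c ≤ h ^ c * M ^ e := by
    have e2 : (p * T) ^ (1 - e) = p ^ (1 - e) * T ^ c * T ^ e := by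
      rw [Real.mul_rpow hp.le hT.le, mul_assoc, ← Real.rpow_add hT]
      congr 2
      rw [hce]; ring
    have e3 : (M * T) ^ e = M ^ e * T ^ e := Real.mul_rpow hM.le hT.le
    rw [e2, e3] at h2
    have hTe : 0 < T ^ e := Real.rpow_pos_of_pos hT e
    have h4 : T ^ e * (a * p ^ (1 - e) * T ^ c) ≤ T ^ e * (h ^ c * M ^ e) := by
      calc T ^ e * (a * p ^ (1 - e) * T ^ c) = a * (p ^ (1 - e) * T ^ c * T ^ e) := by ring
        _ ≤ h ^ c * (M ^ e * T ^ e) := h2
        _ = T ^ e * (h ^ c * M ^ e) := by ring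
    exact le_of_mul_le_mul_left h4 hTe
  have hM1 : 0 < M + 1 := by linarith
  have h4 : M ^ e ≤ (M + 1) ^ c :=
    (Real.rpow_le_rpow hM.le (by linarith) he0.le).trans
      (Real.rpow_le_rpow_of_exponent_le (by linarith) hec)
  have hhc : 0 ≤ h ^ c := Real.rpow_nonneg hh c
  have h5 : a * p ^ (1 - e) * T ^ c ≤ h ^ c * (M + 1) ^ c :=
    h3.trans (mul_le_mul_of_nonneg_left h4 hhc)
  have hMc : 0 < (M + 1) ^ c := Real.rpow_pos_of_pos hM1 c
  have h6 : a * (1 / (M + 1)) ^ c * p ^ (1 - e) * T ^ c ≤ h ^ c := by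
    rw [Real.div_rpow zero_le_one hM1.le, Real.one_rpow]
    calc a * (1 / (M + 1) ^ c) * p ^ (1 - e) * T ^ c = a * p ^ (1 - e) * T ^ c / (M + 1) ^ c := by ring
      _ ≤ h ^ c := (div_le_iff₀ hMc).2 h5
  have hL : 0 ≤ a ^ (r / (r - 1)) * (1 / (M + 1)) * p ^ ((2 * r - 1) / (2 * r - 2)) * T := by positivity
  refine (Real.rpow_le_rpow_iff hL hh hc0).1 ?_
  have e5 : (a ^ (r / (r - 1)) * (1 / (M + 1)) * p ^ ((2 * r - 1) / (2 * r - 2)) * T) ^ c =
      a * (1 / (M + 1)) ^ c * p ^ (1 - e) * T ^ c := by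
    rw [Real.mul_rpow (by positivity) hT.le, Real.mul_rpow (by positivity) (by positivity),
      Real.mul_rpow (by positivity) (by positivity), ← Real.rpow_mul ha.le, ← Real.rpow_mul hp.le]
    have e6 : r / (r - 1) * c = 1 := by
      rw [hc]; field_simp
    have e7 : (2 * r - 1) / (2 * r - 2) * c = 1 - e := by
      rw [hc, he]
      have : 2 * r - 2 ≠ 0 := by linarith
      field_simp
    rw [e6, e7, Real.rpow_one]
  rw [e5]
  exact h6

/-- Hölder for a fixed shift. -/
lemma holder_shift {f : ℝ → ℝ} (hf : Measurable f) {G H : Set ℝ} (hH : MeasurableSet H)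
    {r : ℝ} (hr : 2 ≤ r) (s : ℝ) :
    ∫⁻ t in G, H.indicator (fun u => ENNReal.ofReal |f u|) (t + s) ≤
      volume G ^ (1 / (2 * r)) * volume H ^ ((r - 1) / r) *
        (∫⁻ u in H, ENNReal.ofReal |f u| ^ (2 * r)) ^ (1 / (2 * r)) := by
  have hr0 : 0 < r := by linarith
  set φ : ℝ → ENNReal := H.indicator (fun u => ENNReal.ofReal |f u|) with hφ
  have hφm : Measurable φ := (hf.abs.ennreal_ofReal).indicator hH
  set χ : ℝ → ENNReal := H.indicator (fun _ => (1 : ENNReal)) with hχ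
  have hχm : Measurable χ := measurable_const.indicator hH
  have hpq : (2 * r / (2 * r - 1)).HolderConjugate (2 * r) := by
    have h1 : (2 * r).HolderConjugate (2 * r / (2 * r - 1)) :=
      Real.HolderConjugate.conjExponent (by linarith)
    exact h1.symm
  have h1 := ENNReal.lintegral_mul_le_Lp_mul_Lq (volume.restrict G) hpq
    (f := fun t => χ (t + s)) (g := fun t => φ (t + s))
    (hχm.comp (measurable_add_const s)).aemeasurable (hφm.comp (measurable_add_const s)).aemeasurable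
  have e1 : ∫⁻ t in G, ((fun t => χ (t + s)) * fun t => φ (t + s)) t = ∫⁻ t in G, φ (t + s) := by
    refine lintegral_congr fun t => ?_
    show χ (t + s) * φ (t + s) = φ (t + s)
    by_cases h : t + s ∈ H
    · rw [hχ, indicator_of_mem h, one_mul]
    · rw [hφ, indicator_of_notMem h, mul_zero]
  rw [e1] at h1
  -- the first factor
  have h2 : (∫⁻ t in G, χ (t + s) ^ (2 * r / (2 * r - 1))) ^ (1 / (2 * r / (2 * r - 1))) ≤
      volume G ^ (1 / (2 * r)) * volume H ^ ((r - 1) / r) := by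
    have hpos : 0 < 2 * r / (2 * r - 1) := div_pos (by linarith) (by linarith)
    have e2 : ∫⁻ t in G, χ (t + s) ^ (2 * r / (2 * r - 1)) = volume ((fun t => t + s) ⁻¹' H ∩ G) := by
      have e3 : (fun t => χ (t + s) ^ (2 * r / (2 * r - 1))) =
          ((fun t => t + s) ⁻¹' H).indicator fun _ => (1 : ENNReal) := by
        funext t
        by_cases h : t + s ∈ H
        · rw [indicator_of_mem (show t ∈ (fun t => t + s) ⁻¹' H from h), hχ, indicator_of_mem h,
            ENNReal.one_rpow]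
        · rw [indicator_of_notMem (show t ∉ (fun t => t + s) ⁻¹' H from h), hχ, indicator_of_notMem h,
            ENNReal.zero_rpow_of_pos hpos]
      rw [e3, lintegral_indicator_const (measurable_add_const s hH), one_mul,
        Measure.restrict_apply (measurable_add_const s hH)]
    rw [e2]
    have hxG : volume ((fun t => t + s) ⁻¹' H ∩ G) ≤ volume G := measure_mono inter_subset_right
    have hxH : volume ((fun t => t + s) ⁻¹' H ∩ G) ≤ volume H := by
      refine (measure_mono inter_subset_left).trans ?_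
      rw [measure_preimage_add_right]
    have e4 : 1 / (2 * r / (2 * r - 1)) = 1 / (2 * r) + (r - 1) / r := by
      have : 2 * r - 1 ≠ 0 := by linarith
      field_simp
      ring
    rw [e4, ENNReal.rpow_add_of_nonneg _ _ (by positivity) (div_nonneg (by linarith) hr0.le)]
    exact mul_le_mul' (ENNReal.rpow_le_rpow hxG (by positivity))
      (ENNReal.rpow_le_rpow hxH (div_nonneg (by linarith) hr0.le))
  -- the second factor
  have h3 : (∫⁻ t in G, φ (t + s) ^ (2 * r)) ^ (1 / (2 * r)) ≤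
      (∫⁻ u in H, ENNReal.ofReal |f u| ^ (2 * r)) ^ (1 / (2 * r)) := by
    refine ENNReal.rpow_le_rpow ?_ (by positivity)
    calc ∫⁻ t in G, φ (t + s) ^ (2 * r) ≤ ∫⁻ t, φ (t + s) ^ (2 * r) := setLIntegral_le_lintegral _ _
      _ = ∫⁻ t, φ t ^ (2 * r) := lintegral_add_right_eq_self (fun t => φ t ^ (2 * r)) s
      _ = ∫⁻ u in H, ENNReal.ofReal |f u| ^ (2 * r) := by
        rw [← lintegral_indicator hH]
        refine lintegral_congr fun t => ?_
        by_cases h : t ∈ H
        · rw [hφ, indicator_of_mem h, indicator_of_mem h]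
        · rw [hφ, indicator_of_notMem h, indicator_of_notMem h, ENNReal.zero_rpow_of_pos (by positivity)]
  exact h1.trans (mul_le_mul' h2 h3)

/-- D1: abstract smoothing step. -/
theorem smooth_step {T X V ρ S M : ℝ} {q : ℕ} (hT : 16 ≤ T) (hX : 1 ≤ X) (hV : 1 ≤ V) (hρ : 0 < ρ) (hρ1 : ρ ≤ 1) (hS : 0 < S)
    (hM : 0 < M) (hq : 2 ≤ q) (f : ℝ → ℝ) (hf : Measurable f) (k : ℝ → ℝ) (hk : Measurable k) (hk0 : ∀ s, 0 ≤ k s)
    (hki : Integrable k) (hk1 : ∫ s, k s = 1) (hkf : ∀ t, Integrable fun s => k s * f (t + s))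
    (hfar : ∀ t, T ≤ t → t ≤ 2 * T → ∫ s in {s : ℝ | √T < |s|}, k s * |f (t + s)| ≤ ρ * V / 2)
    (hmi : IntegrableOn (fun t => |f t| ^ (2 * q)) (Icc (T / 2) (3 * T)))
    (hm : ∫ t in Icc (T / 2) (3 * T), |f t| ^ (2 * q) ≤ M * S ^ (2 * q) * T)
    (G : Set ℝ) (hG : MeasurableSet G) (hGT : G ⊆ Icc T (2 * T))
    (hdev : ∀ t ∈ G, (1 + ρ) * V ≤ ∫ s, k s * f (t + s)) {p : ℝ} (hp : 0 < p) (hp1 : p ≤ 1)
    (hpG : ENNReal.ofReal (p * T) ≤ volume G) :
    ENNReal.ofReal ((ρ * V / (2 * S)) ^ ((q : ℝ) / (q - 1)) * (1 / (M + 1)) * p ^ ((2 * q - 1 : ℝ) / (2 * q - 2)) * T) ≤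
      volume {t : ℝ | T - √T ≤ t ∧ t ≤ 2 * T + √T ∧ V ≤ f t} := by
  have hT0 : 0 < T := by linarith
  have hV0 : 0 < V := by linarith
  have hsT : √T ≤ T / 4 := by
    rw [Real.sqrt_le_left (by linarith)]
    nlinarith
  have hsT0 : 0 ≤ √T := Real.sqrt_nonneg T
  set H : Set ℝ := {t : ℝ | T - √T ≤ t ∧ t ≤ 2 * T + √T ∧ V ≤ f t} with hHdef
  have hH : MeasurableSet H :=
    (measurableSet_le measurable_const measurable_id).inter
      ((measurableSet_le measurable_id measurable_const).inter (measurableSet_le measurable_const hf))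
  set φ : ℝ → ENNReal := H.indicator (fun u => ENNReal.ofReal |f u|) with hφ
  have hφm : Measurable φ := (hf.abs.ennreal_ofReal).indicator hH
  set ψ : ℝ → ℝ := H.indicator (fun u => |f u|) with hψ
  have hψm : Measurable ψ := hf.abs.indicator hH
  have hψ0 : ∀ u, 0 ≤ ψ u := fun u => indicator_nonneg (fun _ _ => abs_nonneg _) u
  have hψf : ∀ u, ψ u ≤ |f u| := fun u => indicator_le_self' (fun _ _ => abs_nonneg _) u
  have hφψ : ∀ u, φ u = ENNReal.ofReal (ψ u) := by
    intro u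
    by_cases h : u ∈ H
    · rw [hφ, hψ, indicator_of_mem h, indicator_of_mem h]
    · rw [hφ, hψ, indicator_of_notMem h, indicator_of_notMem h, ENNReal.ofReal_zero]
  -- the pointwise inequality
  have hpt : ∀ t ∈ G, ENNReal.ofReal (ρ * V / 2) ≤ ∫⁻ s, ENNReal.ofReal (k s) * φ (t + s) := by
    intro t ht
    have htT := hGT ht
    have hA : MeasurableSet {s : ℝ | √T < |s|} := measurableSet_lt measurable_const measurable_id.abs
    have hkfa : Integrable fun s => k s * |f (t + s)| := by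
      have h := (hkf t).abs
      refine h.congr (ae_of_all _ fun s => ?_)
      show |k s * f (t + s)| = k s * |f (t + s)|
      rw [abs_mul, abs_of_nonneg (hk0 s)]
    have hkψ : Integrable fun s => k s * ψ (t + s) := by
      refine hkfa.mono' ((hk.mul (hψm.comp (measurable_const_add t))).aestronglyMeasurable)
        (ae_of_all _ fun s => ?_)
      rw [Real.norm_of_nonneg (mul_nonneg (hk0 s) (hψ0 _))]
      exact mul_le_mul_of_nonneg_left (hψf _) (hk0 s)
    have h1 : ∫ s, k s * f (t + s) = (∫ s in {s : ℝ | √T < |s|}, k s * f (t + s)) +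
        ∫ s in {s : ℝ | √T < |s|}ᶜ, k s * f (t + s) := (integral_add_compl hA (hkf t)).symm
    have h2 : ∫ s in {s : ℝ | √T < |s|}, k s * f (t + s) ≤ ρ * V / 2 :=
      (setIntegral_mono (hkf t).integrableOn hkfa.integrableOn fun s =>
        mul_le_mul_of_nonneg_left (le_abs_self _) (hk0 s)).trans (hfar t htT.1 htT.2)
    have h3 : ∫ s in {s : ℝ | √T < |s|}ᶜ, k s * f (t + s) ≤
        ∫ s in {s : ℝ | √T < |s|}ᶜ, (k s * V + k s * ψ (t + s)) := by
      refine setIntegral_mono_on (hkf t).integrableOn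
        ((hki.mul_const V).integrableOn.add hkψ.integrableOn) hA.compl fun s hs => ?_
      have hs' : |s| ≤ √T := not_lt.1 hs
      rw [abs_le] at hs'
      rw [← mul_add]
      refine mul_le_mul_of_nonneg_left ?_ (hk0 s)
      by_cases h : V ≤ f (t + s)
      · have hm : t + s ∈ H := ⟨by linarith [htT.1], by linarith [htT.2], h⟩
        have : ψ (t + s) = |f (t + s)| := by rw [hψ, indicator_of_mem hm]
        rw [this]
        linarith [le_abs_self (f (t + s))]
      · linarith [hψ0 (t + s), not_le.1 h]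
    have h4 : ∫ s in {s : ℝ | √T < |s|}ᶜ, (k s * V + k s * ψ (t + s)) ≤
        ∫ s, (k s * V + k s * ψ (t + s)) :=
      setIntegral_le_integral ((hki.mul_const V).add hkψ)
        (ae_of_all _ fun s => add_nonneg (mul_nonneg (hk0 s) hV0.le) (mul_nonneg (hk0 s) (hψ0 _)))
    have h5 : ∫ s, (k s * V + k s * ψ (t + s)) = V + ∫ s, k s * ψ (t + s) := by
      rw [integral_add (hki.mul_const V) hkψ, integral_mul_const, hk1, one_mul]
    have h6 : ρ * V / 2 ≤ ∫ s, k s * ψ (t + s) := by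
      have := hdev t ht
      linarith
    have h7 : ENNReal.ofReal (∫ s, k s * ψ (t + s)) = ∫⁻ s, ENNReal.ofReal (k s) * φ (t + s) := by
      rw [ofReal_integral_eq_lintegral_ofReal hkψ
        (ae_of_all _ fun s => mul_nonneg (hk0 s) (hψ0 _))]
      refine lintegral_congr fun s => ?_
      rw [hφψ, ENNReal.ofReal_mul (hk0 s)]
    rw [← h7]
    exact ENNReal.ofReal_le_ofReal h6
  -- integrate over `G`
  have hr : (2 : ℝ) ≤ (q : ℝ) := by exact_mod_cast hq
  set B : ENNReal := volume G ^ (1 / (2 * (q : ℝ))) * volume H ^ (((q : ℝ) - 1) / q) *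
    (∫⁻ u in H, ENNReal.ofReal |f u| ^ (2 * (q : ℝ))) ^ (1 / (2 * (q : ℝ))) with hB
  have hint : ENNReal.ofReal (ρ * V / 2) * volume G ≤ B := by
    calc ENNReal.ofReal (ρ * V / 2) * volume G = ∫⁻ _ in G, ENNReal.ofReal (ρ * V / 2) := by
          rw [setLIntegral_const]
      _ ≤ ∫⁻ t in G, ∫⁻ s, ENNReal.ofReal (k s) * φ (t + s) := setLIntegral_mono' hG hpt
      _ = ∫⁻ s, ∫⁻ t in G, ENNReal.ofReal (k s) * φ (t + s) := by
          refine lintegral_lintegral_swap ?_
          exact ((hk.ennreal_ofReal.comp measurable_snd).mul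
            (hφm.comp (measurable_fst.add measurable_snd))).aemeasurable
      _ = ∫⁻ s, ENNReal.ofReal (k s) * ∫⁻ t in G, φ (t + s) := by
          refine lintegral_congr fun s => ?_
          exact lintegral_const_mul (f := fun t => φ (t + s)) _ (hφm.comp (measurable_add_const s))
      _ ≤ ∫⁻ s, ENNReal.ofReal (k s) * B :=
          lintegral_mono fun s => mul_le_mul_right (holder_shift hf hH hr s) _
      _ = (∫⁻ s, ENNReal.ofReal (k s)) * B := lintegral_mul_const _ hk.ennreal_ofReal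
      _ = B := by
          rw [← ofReal_integral_eq_lintegral_ofReal hki (ae_of_all _ hk0), hk1, ENNReal.ofReal_one,
            one_mul]
  -- finiteness
  have hGfin : volume G ≠ ⊤ := ((measure_mono hGT).trans_lt measure_Icc_lt_top).ne
  have hHsub : H ⊆ Icc (T / 2) (3 * T) := fun t ht => ⟨by linarith [ht.1], by linarith [ht.2.1]⟩
  have hHfin : volume H ≠ ⊤ := ((measure_mono hHsub).trans_lt measure_Icc_lt_top).ne
  have hmom : ∫⁻ u in H, ENNReal.ofReal |f u| ^ (2 * (q : ℝ)) ≤ ENNReal.ofReal (M * S ^ (2 * q) * T) := by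
    calc ∫⁻ u in H, ENNReal.ofReal |f u| ^ (2 * (q : ℝ))
        ≤ ∫⁻ u in Icc (T / 2) (3 * T), ENNReal.ofReal |f u| ^ (2 * (q : ℝ)) :=
          lintegral_mono_set hHsub
      _ = ∫⁻ u in Icc (T / 2) (3 * T), ENNReal.ofReal (|f u| ^ (2 * q)) := by
          refine lintegral_congr fun u => ?_
          rw [ENNReal.ofReal_pow (abs_nonneg _), ← ENNReal.rpow_natCast]
          push_cast
          rfl
      _ = ENNReal.ofReal (∫ u in Icc (T / 2) (3 * T), |f u| ^ (2 * q)) :=
          (ofReal_integral_eq_lintegral_ofReal hmi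
            (ae_of_all _ fun u => pow_nonneg (abs_nonneg _) _)).symm
      _ ≤ ENNReal.ofReal (M * S ^ (2 * q) * T) := ENNReal.ofReal_le_ofReal hm
  have hS2 : 0 ≤ M * S ^ (2 * q) * T := by positivity
  obtain ⟨g, hg⟩ : ∃ g : ℝ, g = (volume G).toReal := ⟨_, rfl⟩
  obtain ⟨h, hh⟩ : ∃ h : ℝ, h = (volume H).toReal := ⟨_, rfl⟩
  have hg0 : 0 ≤ g := by rw [hg]; exact ENNReal.toReal_nonneg
  have hh0 : 0 ≤ h := by rw [hh]; exact ENNReal.toReal_nonneg
  have eG : volume G = ENNReal.ofReal g := by rw [hg, ENNReal.ofReal_toReal hGfin]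
  have eH : volume H = ENNReal.ofReal h := by rw [hh, ENNReal.ofReal_toReal hHfin]
  have hq0 : (0 : ℝ) < q := by linarith
  have hreal : ρ * V / 2 * g ≤ g ^ (1 / (2 * (q : ℝ))) * h ^ (((q : ℝ) - 1) / q) *
      (M * S ^ (2 * q) * T) ^ (1 / (2 * (q : ℝ))) := by
    have h1 : B ≤ ENNReal.ofReal (g ^ (1 / (2 * (q : ℝ))) * h ^ (((q : ℝ) - 1) / q) *
        (M * S ^ (2 * q) * T) ^ (1 / (2 * (q : ℝ)))) := by
      rw [hB, eG, eH, ENNReal.ofReal_mul (by positivity), ENNReal.ofReal_mul (by positivity),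
        ← ENNReal.ofReal_rpow_of_nonneg hg0 (by positivity),
        ← ENNReal.ofReal_rpow_of_nonneg hh0 (div_nonneg (by linarith) hq0.le),
        ← ENNReal.ofReal_rpow_of_nonneg hS2 (by positivity)]
      exact mul_le_mul_right (ENNReal.rpow_le_rpow hmom (by positivity)) _
    have h2 := hint.trans h1
    rw [eG, ← ENNReal.ofReal_mul (by positivity)] at h2
    exact (ENNReal.ofReal_le_ofReal_iff (by positivity)).1 h2
  have hSS : (M * S ^ (2 * q) * T) ^ (1 / (2 * (q : ℝ))) = S * (M * T) ^ (1 / (2 * (q : ℝ))) := by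
    have e1 : M * S ^ (2 * q) * T = S ^ (2 * q) * (M * T) := by ring
    rw [e1, Real.mul_rpow (by positivity) (by positivity)]
    congr 1
    rw [← Real.rpow_natCast, ← Real.rpow_mul hS.le]
    push_cast
    rw [mul_one_div_cancel (by positivity), Real.rpow_one]
  rw [hSS] at hreal
  have hfin : ρ * V / (2 * S) * g ≤ g ^ (1 / (2 * (q : ℝ))) * h ^ (((q : ℝ) - 1) / q) *
      (M * T) ^ (1 / (2 * (q : ℝ))) := by
    have e2 : ρ * V / (2 * S) * g = (ρ * V / 2 * g) / S := by field_simp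
    rw [e2, div_le_iff₀ hS]
    calc ρ * V / 2 * g ≤ _ := hreal
      _ = _ := by ring
  have hpg : p * T ≤ g := by
    rw [eG] at hpG
    exact (ENNReal.ofReal_le_ofReal_iff hg0).1 hpG
  rw [eH]
  refine ENNReal.ofReal_le_ofReal ?_
  exact arith_step hT0 (by positivity) hp hM hr hpg hh0 hfin

end Pool.Agent.Helper38.UX
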